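import Pool.Agent.H398.Mon.TypeThreeB

/-!
# Finitely presented monsters of type (3)

Let `G` be a finitely presented infinite noncyclic group all of whose proper subgroups are cyclic.
Its centre is cyclic, and the quotient by the centre is a finitely presented *simple* monster of
type (3), in which the centralizers of the nontrivial elements are the maximal subgroups; they are
cyclic and malnormal. If the centre is infinite, the quotient is a finitely presented infinite
torsion group. A monster of type (3) is never of type (5), and if it is of type (6), then it is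
of type (2).
-/

set_option autoImplicit false

open Subgroup

namespace Pool.Agent.Results.MP_65b575_al.CyclicProperSubgroups

universe u

/-- Type (2): `G` has finite exponent. -/
def Type2 (G : Type u) [Group G] : Prop := ∃ n : ℕ, 1 ≤ n ∧ ∀ g : G, g ^ n = 1

/-- Type (3): `G` is not cyclic, and every proper subgroup of `G` is cyclic. -/
def Type3 (G : Type u) [Group G] : Prop :=
  ¬ IsCyclic G ∧ ∀ H : Subgroup G, H ≠ ⊤ → IsCyclic H

/-- Type (5): `G` is complete. -/
def Type5 (G : Type u) [Group G] : Prop :=
  ∀ g : G, ∀ m : ℕ, 1 ≤ m → ∃ h : G, h ^ m = g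

/-- Type (6): `G` has finitely many conjugacy classes. -/
def Type6 (G : Type u) [Group G] : Prop := Finite (ConjClasses G)

/-- The subgroup `M` is cyclic, maximal among the proper subgroups, and malnormal: it meets its
conjugates by elements outside `M` trivially. -/
def CyclicMaximalMalnormal {G : Type u} [Group G] (M : Subgroup G) : Prop :=
  IsCyclic M ∧ IsCoatom M ∧ ∀ g : G, g ∉ M → ∀ y ∈ M, g * y * g⁻¹ ∈ M → y = 1

/-- Let `G` be a finitely presented monster of type (3).

(a) The centre of `G` is cyclic, and the quotient by it is a finitely presented infinite simple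
group of type (3).

(b) In this quotient the centralizer of every `x ≠ 1` is cyclic, maximal and malnormal, and it is
the only maximal subgroup that contains `x`.

(c) If the centre of `G` is infinite, then `G` is torsion-free and the quotient is a torsion group.

(d) `G` is not of type (5). If `G` is of type (6), then it is of type (2). -/
theorem result (G : Type u) [Group G] [Infinite G] [hfp : Group.IsFinitelyPresented G]
    (h3 : Type3 G) :
    (IsCyclic (center G) ∧ Group.IsFinitelyPresented (G ⧸ center G) ∧ Infinite (G ⧸ center G) ∧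
      IsSimpleGroup (G ⧸ center G) ∧ Type3 (G ⧸ center G)) ∧
    (∀ x : G ⧸ center G, x ≠ 1 →
      CyclicMaximalMalnormal (centralizer ({x} : Set (G ⧸ center G))) ∧
      ∀ M : Subgroup (G ⧸ center G), IsCoatom M → x ∈ M →
        M = centralizer ({x} : Set (G ⧸ center G))) ∧
    (Infinite (center G) →
      (∀ g : G, g ≠ 1 → ¬ IsOfFinOrder g) ∧ ∀ x : G ⧸ center G, IsOfFinOrder x) ∧
    ¬ Type5 G ∧ (Type6 G → Type2 G) := by
  obtain ⟨hnc, hc⟩ := h3
  have hfg : Group.FG G := by
    obtain ⟨n, φ, hφ, -⟩ := hfp.out
    exact Group.fg_of_surjective hφ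
  obtain ⟨hs, hinf, hZ⟩ := H398.Mon.simple_quotient hfg hnc hc
  have hZc : IsCyclic (center G) := hc _ hZ
  have hfgS : Group.FG (G ⧸ center G) := inferInstance
  have hcS : ∀ H : Subgroup (G ⧸ center G), H ≠ ⊤ → IsCyclic H :=
    fun H hH => H398.Mon.cyclic_quotient hc _ H hH
  refine ⟨⟨hZc, ?_, hinf, hs, (H398.Mon.noncomm_simple (G := G ⧸ center G)).2, hcS⟩, ?_, ?_, ?_, ?_⟩
  · obtain ⟨⟨z, hz⟩, hgen⟩ := hZc
    refine Group.IsFinitelyPresented.quotient (center G) ⟨{z}, Set.finite_singleton z, ?_⟩
    apply le_antisymm
    · apply normalClosure_le_normal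
      simpa using hz
    · intro x hx
      obtain ⟨a, ha⟩ := hgen ⟨x, hx⟩
      have ha' : z ^ a = x := by simpa using congrArg Subtype.val ha
      rw [← ha']
      exact (normalClosure ({z} : Set G)).zpow_mem
        (subset_normalClosure (Set.mem_singleton z)) a
  · intro x hx
    obtain ⟨h1, h2, h4⟩ := H398.Mon.maximal_structure hfgS hcS x hx
    refine ⟨⟨hcS _ h1.1, h1, h4⟩, ?_⟩
    intro M hM hxM
    rcases (h2 M hM.1 hxM).eq_or_lt with h | h
    · exact h
    · exact absurd (hM.2 _ h) h1.1
  · intro hZi
    exact H398.Mon.infinite_center hfg hnc hc hZi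
  · intro h5
    exact H398.Mon.not_complete hfg hnc hc h5
  · intro h6
    have : Finite (ConjClasses G) := h6
    obtain ⟨n, hn, hn1⟩ := H398.Mon.exponent_of_three_six hfg hnc hc
    exact ⟨n, hn, hn1⟩

end Pool.Agent.Results.MP_65b575_al.CyclicProperSubgroups
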