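import Pool.Agent.H398.Mon.Classes
import Pool.Agent.H398.Mon.Growth

/-!
# Finitely presented monsters of type (6): reduction to simple groups

A finitely presented infinite group `G` with finitely many conjugacy classes has a normal subgroup
`L` of finite index which maps onto a finitely presented infinite simple group with finitely many
conjugacy classes, and this simple monster either has finite exponent (it is also a monster of
type (2)) or contains the additive group of the rationals and has exponential growth (it is not a
monster of type (7)).

Proof. `G` has finitely many normal subgroups, each the normal closure of a finite set. `L` is the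
intersection of those of finite index; it is finitely presented, has finitely many conjugacy
classes and no proper subgroup of finite index, and a maximal proper normal subgroup `K` of `L` is
the normal closure of a finite set, so `L / K` is finitely presented. If some `g` has infinite
order, infinitely many of the powers `g ^ (k !)` are conjugate; the first of them, `x`, is
conjugate to `x ^ (n m)` for some `m > 0`, for every `n > 0`. So `x` has `n`-th roots among the
conjugates of its powers, which gives the rationals, and `t x t⁻¹ = x ^ N` with `N ≥ 2` gives
exponential growth.
-/

set_option autoImplicit false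

open scoped Pointwise

namespace Pool.Agent.Results.MP_65b575_al.FinitelyManyClasses

universe u

/-- Type (2): `G` has finite exponent. -/
def Type2 (G : Type u) [Group G] : Prop := ∃ n : ℕ, 1 ≤ n ∧ ∀ g : G, g ^ n = 1

/-- Type (6): `G` has finitely many conjugacy classes. -/
def Type6 (G : Type u) [Group G] : Prop := Finite (ConjClasses G)

/-- The growth function with respect to `T`: the number of elements of word length at most `n`. -/
noncomputable def growth {G : Type u} [Group G] (T : Finset G) (n : ℕ) : ℕ :=
  (((T : Set G) ∪ (T : Set G)⁻¹ ∪ {1}) ^ n).ncard

/-- `G` has exponential growth: for every finite generating set the growth function is bounded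
below by an exponential function `e ^ (c r)`, `c > 0`. -/
def ExponentialGrowth (G : Type u) [Group G] : Prop :=
  ∀ T : Finset G, Subgroup.closure (T : Set G) = ⊤ →
    ∃ c : ℝ, 0 < c ∧ ∀ r : ℕ, Real.exp (c * r) ≤ growth T r

/-- `G` contains a copy of the additive group of the rationals. -/
def ContainsRat (G : Type u) [Group G] : Prop :=
  ∃ f : Multiplicative ℚ →* G, Function.Injective f

/-- Let `G` be a finitely presented monster of type (6). Then `G` has a normal subgroup `L` of finite
index and `L` a normal subgroup `K` such that `L / K` is a finitely presented *simple* monster of
type (6) which is also of type (2), or contains the rationals and has exponential growth. -/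
theorem result (G : Type u) [Group G] [Infinite G] [Group.IsFinitelyPresented G] (h6 : Type6 G) :
    ∃ (L : Subgroup G) (K : Subgroup L) (_ : K.Normal), L.Normal ∧ L.FiniteIndex ∧
      Infinite (L ⧸ K) ∧ Group.IsFinitelyPresented (L ⧸ K) ∧ Type6 (L ⧸ K) ∧
      IsSimpleGroup (L ⧸ K) ∧
      (Type2 (L ⧸ K) ∨ (ContainsRat (L ⧸ K) ∧ ExponentialGrowth (L ⧸ K))) := by
  have hc : Finite (ConjClasses G) := h6
  obtain ⟨L, K, hK, hLn, hLf, -, hs, hfp, hinf, hcl⟩ := H398.Mon.reduction (G := G)
  refine ⟨L, K, hK, hLn, hLf, hinf, hfp, hcl, hs, ?_⟩
  by_cases h : ∀ g : L ⧸ K, IsOfFinOrder g
  · left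
    obtain ⟨n, hn, hn1⟩ := H398.Mon.exponent_of_torsion h
    exact ⟨n, hn, hn1⟩
  · right
    obtain ⟨x, hx, hrec⟩ := H398.Mon.exists_recurrent h
    exact ⟨H398.Mon.exists_rat hx hrec, fun T hT => H398.Mon.exp_growth hx hrec T hT⟩

end Pool.Agent.Results.MP_65b575_al.FinitelyManyClasses
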