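import Pool.Agent.H398.Mon.Isolated
import Pool.Agent.H398.Mon.Classes
import Pool.Agent.H398.Mon.TypeThree

/-!
# Finitely presented monsters are not limits of other groups

A finitely presented monster of type (6), of type (4), or of type (3) with finite centre has only
finitely many normal subgroups, hence it is an isolated point of the space of marked groups: it is
determined among all marked groups by the finite set of its relations of length at most `r`. So a
finitely presented monster of one of these types cannot be obtained as a limit of other groups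
(for instance of hyperbolic groups), as all known monsters of these types are.
-/

set_option autoImplicit false

open Subgroup

namespace Pool.Agent.Results.MP_65b575_al.IsolatedMonsters

universe u v

/-- Type (3): `G` is not cyclic, and every proper subgroup of `G` is cyclic. -/
def Type3 (G : Type u) [Group G] : Prop :=
  ¬ IsCyclic G ∧ ∀ H : Subgroup G, H ≠ ⊤ → IsCyclic H

/-- Type (4): for some prime `p` every nontrivial proper subgroup is cyclic of order `p`. -/
def Type4 (G : Type u) [Group G] : Prop :=
  ∃ p : ℕ, p.Prime ∧ ∀ H : Subgroup G, H ≠ ⊥ → H ≠ ⊤ → IsCyclic H ∧ Nat.card H = p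

/-- Type (6): `G` has finitely many conjugacy classes. -/
def Type6 (G : Type u) [Group G] : Prop := Finite (ConjClasses G)

/-- `G` is isolated in the space of marked groups: for every finite generating tuple `s` of `G`
there is `r` such that every group `H` with a generating tuple `t` which satisfies the same
relations of length at most `r` as `s` is isomorphic to `G` by an isomorphism mapping `s` to
`t`. -/
def Isolated (G : Type u) [Group G] : Prop :=
  ∀ (n : ℕ) (s : Fin n → G), closure (Set.range s) = ⊤ →
    ∃ r : ℕ, ∀ (H : Type v) [Group H] (t : Fin n → H), closure (Set.range t) = ⊤ →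
      (∀ w : FreeGroup (Fin n), w.norm ≤ r →
        (FreeGroup.lift s w = 1 ↔ FreeGroup.lift t w = 1)) →
      ∃ e : G ≃* H, ∀ i, e (s i) = t i

theorem type4_not_cyclic {G : Type u} [Group G] [Infinite G] (h : Type4 G) : ¬ IsCyclic G := by
  obtain ⟨p, hp, h⟩ := h
  rintro ⟨c, hc⟩
  have hcf : ¬ IsOfFinOrder c := by
    intro hf
    have h1 : (Set.univ : Set G).Finite := by
      refine hf.finite_zpowers.subset ?_
      intro g _
      obtain ⟨a, ha⟩ := hc g
      exact ⟨a, ha⟩
    exact Set.infinite_univ h1
  have h1 : Subgroup.zpowers (c ^ (2 : ℤ)) ≠ ⊥ := by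
    intro e
    rw [Subgroup.zpowers_eq_bot] at e
    have := R673.MG.zpow_inj_of hcf (e.trans (zpow_zero c).symm)
    omega
  have h2 : Subgroup.zpowers (c ^ (2 : ℤ)) ≠ ⊤ := by
    intro e
    have h3 : c ∈ Subgroup.zpowers (c ^ (2 : ℤ)) := by rw [e]; trivial
    obtain ⟨a, ha⟩ := h3
    have ha' : (c ^ (2 : ℤ)) ^ a = c ^ (1 : ℤ) := by rw [zpow_one]; exact ha
    rw [← zpow_mul] at ha'
    have := R673.MG.zpow_inj_of hcf ha'
    omega
  obtain ⟨-, h3⟩ := h _ h1 h2
  rw [Nat.card_zpowers] at h3
  have h4 : IsOfFinOrder (c ^ (2 : ℤ)) := by
    rw [← orderOf_pos_iff, h3]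
    exact hp.pos
  apply hcf
  obtain ⟨n, hn, hn1⟩ := isOfFinOrder_iff_pow_eq_one.1 h4
  rw [← zpow_natCast, ← zpow_mul] at hn1
  have := R673.MG.zpow_inj_of hcf (hn1.trans (zpow_zero c).symm)
  omega

theorem finite_normal_of_three {G : Type u} [Group G] [Infinite G] (h3 : Type3 G)
    (hZ : Finite (center G)) : Finite {N : Subgroup G // N.Normal} := by
  classical
  have hno : ∀ H : Subgroup G, H.FiniteIndex → H = ⊤ := R673.MG.cyclic_no_fi h3.1 h3.2
  have hfin : ({N : Subgroup G | N ≤ center G}).Finite := by
    have h1 : Finite (Set (center G)) := inferInstance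
    refine Set.Finite.of_injOn (f := fun N : Subgroup G => {z : center G | (z : G) ∈ N})
      (t := Set.univ) (fun _ _ => Set.mem_univ _) ?_ Set.finite_univ
    intro N hN M hM h
    ext x
    have h' : {z : center G | (z : G) ∈ N} = {z : center G | (z : G) ∈ M} := h
    constructor
    · intro hx
      have : (⟨x, hN hx⟩ : center G) ∈ {z : center G | (z : G) ∈ M} := by rw [← h']; exact hx
      exact this
    · intro hx
      have : (⟨x, hM hx⟩ : center G) ∈ {z : center G | (z : G) ∈ N} := by rw [h']; exact hx
      exact this
  have hfin2 : ({N : Subgroup G | N.Normal}).Finite := by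
    refine (hfin.union (Set.finite_singleton ⊤)).subset ?_
    intro N hN
    have hN' : N.Normal := hN
    by_cases h : N = ⊤
    · exact Or.inr h
    · exact Or.inl (H398.Mon.normal_le_center h3.2 hno N h)
  exact hfin2.to_subtype

/-- Every finitely presented group with finitely many conjugacy classes, every finitely presented
monster of type (4), and every finitely presented monster of type (3) with finite centre is
isolated in the space of marked groups. -/
theorem result (G : Type u) [Group G] [Group.IsFinitelyPresented G]
    (hG : Type6 G ∨ (Infinite G ∧ Type4 G) ∨ (Infinite G ∧ Type3 G ∧ Finite (center G))) :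
    Isolated.{u, v} G := by
  have key : Finite {N : Subgroup G // N.Normal} := by
    rcases hG with h6 | ⟨hinf, h4⟩ | ⟨hinf, h3, hZ⟩
    · have : Finite (ConjClasses G) := h6
      exact H398.Mon.finite_normal
    · have hnc := type4_not_cyclic h4
      obtain ⟨p, hp, h⟩ := h4
      have h3 : Type3 G := by
        refine ⟨hnc, fun H hH => ?_⟩
        by_cases hb : H = ⊥
        · rw [hb]
          exact isCyclic_of_subsingleton
        · exact (h H hb hH).1
      refine finite_normal_of_three h3 ?_
      by_cases hb : center G = ⊥
      · rw [hb]
        infer_instance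
      · have ht : center G ≠ ⊤ := by
          intro ht
          obtain ⟨n, φ, hφ, -⟩ := (inferInstance : Group.IsFinitelyPresented G).out
          have hfg : Group.FG G := Group.fg_of_surjective hφ
          apply H398.Mon.not_comm hfg (R673.MG.cyclic_no_fi h3.1 h3.2)
          intro x y
          have : y ∈ center G := by rw [ht]; trivial
          exact mem_center_iff.1 this x
        apply Nat.finite_of_card_ne_zero
        rw [(h _ hb ht).2]
        exact hp.ne_zero
    · exact finite_normal_of_three h3 hZ
  intro n s hs
  exact H398.Mon.isolated n s hs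

end Pool.Agent.Results.MP_65b575_al.IsolatedMonsters
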